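import Pool.Agent.Helper9.UP.StN

set_option autoImplicit false

noncomputable section

namespace Pool.Agent.Helper42.UP9

open Finset Polynomial NumberField Module
open Pool.Agent.Helper9.UP

theorem nm_pos (K : Type) [Field K] [NumberField K] (I : Ideal (𝓞 K)) (hI : I ≠ ⊥) :
    1 ≤ nm K I := by
  unfold nm
  have h : Ideal.absNorm I ≠ 0 := fun h => hI (Ideal.absNorm_eq_zero_iff.mp h)
  exact_mod_cast Nat.one_le_iff_ne_zero.mpr h

theorem nm_mul (K : Type) [Field K] [NumberField K] (I J : Ideal (𝓞 K)) :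
    nm K (I * J) = nm K I * nm K J := by
  unfold nm
  rw [map_mul]
  push_cast
  rfl

theorem mem_two (K : Type) [Field K] [NumberField K] (P Q : Ideal (𝓞 K)) (hP : P.IsPrime)
    (hP0 : P ≠ ⊥) (hQ : Q.IsPrime) (hQ0 : Q ≠ ⊥) (hne : P ≠ Q) (x : 𝓞 K) :
    x ∈ P * Q ↔ (x ∈ P ∧ x ∈ Q) := by
  have hPm : P.IsMaximal := hP.isMaximal hP0
  have hQm : Q.IsMaximal := hQ.isMaximal hQ0
  have hco : P ⊔ Q = ⊤ := hPm.coprime_of_ne hQm hne
  have h := Ideal.mul_eq_inf_of_coprime hco
  rw [h]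
  exact Ideal.mem_inf

open Classical in
theorem hTK (hE : StEQ) : StTK := by
  intro K _ _ T hG W B Ps hW hB hPs hPP hGpos
  have hd0 : 0 < (dg K : ℝ) := by
    have : 0 < dg K := by unfold dg; exact finrank_pos
    exact_mod_cast this
  have hWpos : 0 < W := by linarith
  set G : ℝ := ∑ P ∈ Ps, 1 / nm K P with hGdef
  set N : ℝ := nb K B with hN
  set e : ℝ := 6 * (dg K : ℝ) / W with he
  have he0 : 0 ≤ e := by rw [he]; positivity
  have he1 : e ≤ 1 / 2 := by
    rw [he, div_le_iff₀ hWpos]; linarith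
  have hN0 : 0 ≤ N := by rw [hN]; unfold nb; positivity
  -- one prime
  have h1 : ∀ P ∈ Ps, |nm K P * ni K P B - N| ≤ e * N := by
    intro P hP
    have hn := nm_pos K P (hPs P hP).2
    refine hE K T hG W B P hW hB (hPs P hP).2 ?_
    refine le_trans ?_ (hPP P hP P hP)
    have h2 : nm K P ^ (1 / (dg K : ℝ)) ≤ (nm K P * nm K P) ^ (1 / (dg K : ℝ)) := by
      apply Real.rpow_le_rpow (by linarith) (by nlinarith) (by positivity)
    have h3 : 0 ≤ T ^ 2 * W := by positivity
    nlinarith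
  have h1u : ∀ P ∈ Ps, ni K P B ≤ (1 + e) * N * (1 / nm K P) := by
    intro P hP
    have hn := nm_pos K P (hPs P hP).2
    have hn0 : 0 < nm K P := by linarith
    have := (abs_le.mp (h1 P hP)).2
    rw [mul_one_div, le_div_iff₀ hn0]
    linarith
  have h1l : ∀ P ∈ Ps, (1 - e) * N * (1 / nm K P) ≤ ni K P B := by
    intro P hP
    have hn := nm_pos K P (hPs P hP).2
    have hn0 : 0 < nm K P := by linarith
    have := (abs_le.mp (h1 P hP)).1
    rw [mul_one_div, div_le_iff₀ hn0]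
    linarith
  -- two primes
  have h2u : ∀ P ∈ Ps, ∀ Q ∈ Ps, P ≠ Q →
      ni K (P * Q) B ≤ (1 + e) * N * ((1 / nm K P) * (1 / nm K Q)) := by
    intro P hP Q hQ hne
    have hn := nm_pos K P (hPs P hP).2
    have hm := nm_pos K Q (hPs Q hQ).2
    have hn0 : 0 < nm K P := by linarith
    have hm0 : 0 < nm K Q := by linarith
    have hPQ0 : P * Q ≠ ⊥ := by
      intro h
      rcases Ideal.mul_eq_bot.mp h with h | h
      · exact (hPs P hP).2 h
      · exact (hPs Q hQ).2 h
    have h3 := hE K T hG W B (P * Q) hW hB hPQ0 (by rw [nm_mul]; exact hPP P hP Q hQ)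
    have h4 := (abs_le.mp h3).2
    rw [nm_mul] at h4
    have h5 : (1 / nm K P) * (1 / nm K Q) = 1 / (nm K P * nm K Q) := by
      field_simp
    rw [h5, mul_one_div, le_div_iff₀ (by positivity)]
    linarith
  -- the counting function
  let om : 𝓞 K → ℝ := fun x => ∑ P ∈ Ps, if x ∈ P then (1 : ℝ) else 0
  have hni : ∀ I : Ideal (𝓞 K), ni K I B = ∑ x ∈ ball K B, if x ∈ I then (1 : ℝ) else 0 := by
    intro I
    unfold ni
    rw [Finset.card_filter]
    push_cast
    rfl
  have hS1 : ∑ x ∈ ball K B, om x = ∑ P ∈ Ps, ni K P B := by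
    show ∑ x ∈ ball K B, ∑ P ∈ Ps, (if x ∈ P then (1 : ℝ) else 0) = _
    rw [Finset.sum_comm]
    exact Finset.sum_congr rfl (fun P _ => (hni P).symm)
  have hS1l : (1 - e) * N * G ≤ ∑ x ∈ ball K B, om x := by
    rw [hS1, hGdef, Finset.mul_sum]
    exact Finset.sum_le_sum h1l
  have hS2 : ∑ x ∈ ball K B, om x ^ 2 ≤ (1 + e) * N * (G ^ 2 + G) := by
    have e1 : ∀ x, om x ^ 2 = ∑ P ∈ Ps, ∑ Q ∈ Ps, if (x ∈ P ∧ x ∈ Q) then (1 : ℝ) else 0 := by
      intro x
      show (∑ P ∈ Ps, if x ∈ P then (1 : ℝ) else 0) ^ 2 = _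
      rw [sq, Finset.sum_mul_sum]
      refine Finset.sum_congr rfl (fun P _ => Finset.sum_congr rfl (fun Q _ => ?_))
      by_cases h : x ∈ P <;> by_cases h' : x ∈ Q <;> simp [h, h']
    have e2 : ∑ x ∈ ball K B, om x ^ 2 =
        ∑ P ∈ Ps, ∑ Q ∈ Ps, ∑ x ∈ ball K B, if (x ∈ P ∧ x ∈ Q) then (1 : ℝ) else 0 := by
      rw [Finset.sum_congr rfl (fun x _ => e1 x), Finset.sum_comm]
      exact Finset.sum_congr rfl (fun P _ => Finset.sum_comm)
    rw [e2]
    have e3 : ∀ P ∈ Ps, ∀ Q ∈ Ps,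
        (∑ x ∈ ball K B, if (x ∈ P ∧ x ∈ Q) then (1 : ℝ) else 0) ≤
        (1 + e) * N * ((1 / nm K P) * (1 / nm K Q)) +
          (if P = Q then (1 + e) * N * (1 / nm K P) else 0) := by
      intro P hP Q hQ
      have hn := nm_pos K P (hPs P hP).2
      have hm := nm_pos K Q (hPs Q hQ).2
      have hn0 : 0 < nm K P := by linarith
      have hm0 : 0 < nm K Q := by linarith
      by_cases h : P = Q
      · subst h
        have h3 := h1u P hP
        rw [hni P] at h3
        have h4 : 0 ≤ (1 + e) * N * ((1 / nm K P) * (1 / nm K P)) := by positivity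
        simp only [and_self, if_true]
        linarith
      · have h3 := h2u P hP Q hQ h
        rw [hni (P * Q)] at h3
        rw [if_neg h, add_zero]
        refine le_trans (le_of_eq ?_) h3
        refine Finset.sum_congr rfl (fun x _ => ?_)
        have := mem_two K P Q (hPs P hP).1 (hPs P hP).2 (hPs Q hQ).1 (hPs Q hQ).2 h x
        simp only [this]
    calc ∑ P ∈ Ps, ∑ Q ∈ Ps, ∑ x ∈ ball K B, (if (x ∈ P ∧ x ∈ Q) then (1 : ℝ) else 0)
        ≤ ∑ P ∈ Ps, ∑ Q ∈ Ps, ((1 + e) * N * ((1 / nm K P) * (1 / nm K Q)) +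
          (if P = Q then (1 + e) * N * (1 / nm K P) else 0)) :=
          Finset.sum_le_sum (fun P hP => Finset.sum_le_sum (fun Q hQ => e3 P hP Q hQ))
      _ = (1 + e) * N * (G ^ 2 + G) := by
          have e4 : ∀ P ∈ Ps, ∑ Q ∈ Ps, ((1 + e) * N * ((1 / nm K P) * (1 / nm K Q)) +
              (if P = Q then (1 + e) * N * (1 / nm K P) else 0)) =
              (1 + e) * N * (1 / nm K P) * G + (1 + e) * N * (1 / nm K P) := by
            intro P hP
            rw [Finset.sum_add_distrib, Finset.sum_ite_eq, if_pos hP]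
            congr 1
            rw [hGdef, Finset.mul_sum]
            exact Finset.sum_congr rfl (fun Q _ => by ring)
          rw [Finset.sum_congr rfl e4, Finset.sum_add_distrib]
          have e5 : ∑ P ∈ Ps, (1 + e) * N * (1 / nm K P) * G = (1 + e) * N * G * G := by
            rw [hGdef, ← Finset.sum_mul, ← Finset.mul_sum]
          have e6 : ∑ P ∈ Ps, (1 + e) * N * (1 / nm K P) = (1 + e) * N * G := by
            rw [hGdef, ← Finset.mul_sum]
          rw [e5, e6]; ring
  -- variance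
  have hcard : ∑ x ∈ ball K B, (1 : ℝ) = N := by
    rw [hN]; unfold nb; simp
  have hvar : ∑ x ∈ ball K B, (om x - G) ^ 2 ≤ N * (2 * G + 3 * e * G ^ 2) := by
    have e1 : ∑ x ∈ ball K B, (om x - G) ^ 2 = ∑ x ∈ ball K B, om x ^ 2
        - 2 * G * ∑ x ∈ ball K B, om x + G ^ 2 * N := by
      have a1 : 2 * G * ∑ x ∈ ball K B, om x = ∑ x ∈ ball K B, 2 * G * om x :=
        Finset.mul_sum _ _ _
      have a2 : G ^ 2 * N = ∑ x ∈ ball K B, G ^ 2 := by
        rw [← hcard, Finset.mul_sum]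
        exact Finset.sum_congr rfl (fun x _ => by ring)
      rw [a1, a2, ← Finset.sum_sub_distrib, ← Finset.sum_add_distrib]
      exact Finset.sum_congr rfl (fun x _ => by ring)
    rw [e1]
    have h5 : 2 * G * ((1 - e) * N * G) ≤ 2 * G * ∑ x ∈ ball K B, om x :=
      mul_le_mul_of_nonneg_left hS1l (by linarith)
    have h6 : 0 ≤ (1 - e) * (N * G) := by
      have : 0 ≤ N * G := by positivity
      exact mul_nonneg (by linarith) this
    nlinarith
  have hZ : ((((ball K B).filter (fun x : 𝓞 K => ∀ P ∈ Ps, x ∉ P)).card : ℕ) : ℝ) * G ^ 2 ≤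
      N * (2 * G + 3 * e * G ^ 2) := by
    refine le_trans ?_ hvar
    rw [← nsmul_eq_mul, ← Finset.sum_const]
    calc ∑ x ∈ (ball K B).filter (fun x : 𝓞 K => ∀ P ∈ Ps, x ∉ P), G ^ 2
        = ∑ x ∈ (ball K B).filter (fun x : 𝓞 K => ∀ P ∈ Ps, x ∉ P), (om x - G) ^ 2 := by
          refine Finset.sum_congr rfl (fun x hx => ?_)
          have hx' := (Finset.mem_filter.mp hx).2
          have : om x = 0 := by
            show (∑ P ∈ Ps, if x ∈ P then (1 : ℝ) else 0) = 0
            exact Finset.sum_eq_zero (fun P hP => if_neg (hx' P hP))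
          rw [this]; ring
      _ ≤ ∑ x ∈ ball K B, (om x - G) ^ 2 :=
          Finset.sum_le_sum_of_subset_of_nonneg (Finset.filter_subset _ _)
            (fun x _ _ => sq_nonneg _)
  have hG2 : 0 < G ^ 2 := by positivity
  have h7 : (2 / G + 18 * (dg K : ℝ) / W) * N * G ^ 2 = N * (2 * G + 3 * e * G ^ 2) := by
    rw [he]; field_simp; ring
  exact le_of_mul_le_mul_right (by rw [h7]; exact hZ) hG2

end Pool.Agent.Helper42.UP9
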